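import Pool.Agent.Y462.PA.Stm

/-!
# Polynomial activity: enlargement of a context

Author helper383 (job PA-ENL of helper462).
-/

set_option autoImplicit false

open Classical

namespace Pool.Agent.Y383.PA

open Pool.Agent.Y462.SS
open Pool.Agent.Y462.PA
open Pool.Agent.Y110.FJ (ClosedE)

variable {X : Type}

/-- functoriality of the wreath product -/
def mapWr {V V' : Type} [Group V] [Group V'] (f : V →* V') : Wr X V →* Wr X V' where
  toFun w := ⟨fun x => f (w.s x), w.p⟩
  map_one' := by
    apply Wr.ext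
    · funext x
      exact map_one f
    · rfl
  map_mul' a b := by
    apply Wr.ext
    · funext x
      exact map_mul f _ _
    · rfl

/-- the recursion of a self-similar group with values in a bigger group -/
def recK {K : Subgroup (T X)} (hK : SelfSim K) {V : Type} [Group V] (i : K →* V) :
    K →* Wr X V where
  toFun k := ⟨fun x => i ⟨sec k.1 x, hK k.1 k.2 x⟩, root k.1⟩
  map_one' := by
    apply Wr.ext
    · funext x
      have h : (⟨sec (1 : K).1 x, hK (1 : K).1 (1 : K).2 x⟩ : K) = 1 :=
        Subtype.ext (sec_one x)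
      change i _ = 1
      rw [h, map_one]
    · exact root_one
  map_mul' a b := by
    apply Wr.ext
    · funext x
      change i _ = i _ * i _
      rw [← map_mul]
      congr 1
      exact Subtype.ext (sec_mul a.1 b.1 x)
    · exact root_mul a.1 b.1

theorem root_Bd {d : X} {P : ℕ} {K : Subgroup (T X)} {b : T X} (hb : b ∈ Bd d P K) :
    root b d = d := hb.1 0

theorem sec_Bd {d : X} {P : ℕ} {K : Subgroup (T X)} {b : T X} (hb : b ∈ Bd d P K) :
    sec b d ∈ Bd d P K := by
  have h1 : ∀ n, al (dray d) (sec b d) n = al (dray d) b (n + 1) := fun n =>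
    al_sh (dray d) b n
  obtain ⟨b1, b2, b3⟩ := hb
  refine ⟨fun n => ?_, ?_, fun n x hx => ?_⟩
  · rw [h1]
    exact b1 (n + 1)
  · rw [h1, al, b2]
    rfl
  · rw [h1]
    exact b3 (n + 1) x hx

/-- the section along the ray -/
def secd (d : X) (P : ℕ) (K : Subgroup (T X)) : Bd d P K →* Bd d P K where
  toFun b := ⟨sec b.1 d, sec_Bd b.2⟩
  map_one' := Subtype.ext (sec_one d)
  map_mul' a b := by
    apply Subtype.ext
    change sec (a.1 * b.1) d = sec a.1 d * sec b.1 d
    rw [sec_mul, root_Bd b.2]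

/-- the sections off the ray -/
noncomputable def offd (d : X) (P : ℕ) {K : Subgroup (T X)} {V : Type} [Group V] (i : K →* V) :
    Bd d P K →* Wr X V where
  toFun b := ⟨fun x => if hx : x = d then 1 else i ⟨sec b.1 x, b.2.2.2 0 x hx⟩, root b.1⟩
  map_one' := by
    apply Wr.ext
    · funext x
      change (if hx : x = d then 1 else _) = _
      by_cases hx : x = d
      · rw [dif_pos hx]
        rfl
      · rw [dif_neg hx]
        have h : (⟨sec (1 : Bd d P K).1 x, (1 : Bd d P K).2.2.2 0 x hx⟩ : K) = 1 :=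
          Subtype.ext (sec_one x)
        rw [h, map_one]
        rfl
    · exact root_one
  map_mul' a b := by
    apply Wr.ext
    · funext x
      change (if hx : x = d then 1 else i ⟨sec (a.1 * b.1) x, _⟩) =
        (if hy : root b.1 x = d then 1 else i ⟨sec a.1 (root b.1 x), _⟩) *
          (if hx : x = d then 1 else i ⟨sec b.1 x, _⟩)
      by_cases hx : x = d
      · have hy : root b.1 x = d := by rw [hx]; exact root_Bd b.2
        rw [dif_pos hx, dif_pos hy, dif_pos hx, one_mul]
      · have hy : root b.1 x ≠ d := fun h => hx ((root b.1).injective (h.trans (root_Bd b.2).symm))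
        rw [dif_neg hx, dif_neg hy, dif_neg hx, ← map_mul]
        congr 1
        exact Subtype.ext (sec_mul a.1 b.1 x)
    · exact root_mul a.1 b.1

/-- the stabilizer of `d` with trivial section at `d` -/
def stab (d : X) (V : Type) [Group V] : Subgroup (Wr X V) where
  carrier := {w | w.p d = d ∧ w.s d = 1}
  one_mem' := ⟨rfl, rfl⟩
  mul_mem' := by
    rintro a b ⟨a1, a2⟩ ⟨b1, b2⟩
    refine ⟨?_, ?_⟩
    · rw [Wr.mul_p, Equiv.Perm.mul_apply, b1, a1]
    · rw [Wr.mul_s, b1, a2, b2, one_mul]
  inv_mem' := by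
    rintro a ⟨a1, a2⟩
    have h : (a.p)⁻¹ d = d := by rw [Equiv.Perm.inv_eq_iff_eq, a1]
    refine ⟨?_, ?_⟩
    · rw [Wr.inv_p, h]
    · rw [Wr.inv_s, h, a2, inv_one]

theorem TL_top (C : ∀ (G : Type) [Group G], Prop) (K : Type) [Group K] :
    TL C K {(⊤ : Subgroup K)} := by
  intro P _ f hP hf
  refine ⟨P, inferInstance, f, hP, ?_, ?_⟩
  · rw [injective_iff_map_eq_one]
    exact fun a ha => hf ⊤ rfl a trivial ha
  · rintro A -
    exact ⟨MonoidHom.id P, fun _ _ h => h, fun a _ => rfl⟩

section ctx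

variable {C : ∀ (G : Type) [Group G], Prop} {d : X} {P : ℕ} {H K : Subgroup (T X)}

/-- the new vertex group -/
abbrev NV (hHK : H ≤ K) (W : Ctx C d P H) : Type := Am (Subgroup.inclusion hHK) W.iV

/-- the new group on the ray -/
abbrev NU (hHK : H ≤ K) (W : Ctx C d P H) : Type :=
  Am (Subgroup.inclusion (Bd_mono (d := d) (P := P) hHK)) W.iU

/-- the recursion -/
noncomputable def nrV (hH : SelfSim H) (hK : SelfSim K) (hHK : H ≤ K) (W : Ctx C d P H) :
    NV hHK W →* Wr X (NV hHK W) :=
  Am.lift (Subgroup.inclusion hHK) W.iV (recK hK (Am.inl (Subgroup.inclusion hHK) W.iV))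
    ((mapWr (Am.inr (Subgroup.inclusion hHK) W.iV)).comp W.rV) (by
      intro c
      apply Wr.ext
      · funext x
        change Am.inl _ _ (Subgroup.inclusion hHK ⟨sec c.1 x, hH c.1 c.2 x⟩) =
          Am.inr _ _ ((W.rV (W.iV c)).s x)
        rw [W.rV_s c x (hH c.1 c.2 x), Am.glue]
      · change root c.1 = (W.rV (W.iV c)).p
        rw [W.rV_p])

/-- the section along the ray -/
noncomputable def nrU (hHK : H ≤ K) (W : Ctx C d P H) : NU hHK W →* NU hHK W :=
  Am.lift (Subgroup.inclusion (Bd_mono (d := d) (P := P) hHK)) W.iU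
    ((Am.inl (Subgroup.inclusion (Bd_mono (d := d) (P := P) hHK)) W.iU).comp (secd d P K))
    ((Am.inr (Subgroup.inclusion (Bd_mono (d := d) (P := P) hHK)) W.iU).comp W.rU) (by
      intro c
      change Am.inl _ _ (Subgroup.inclusion (Bd_mono (d := d) (P := P) hHK)
        ⟨sec c.1 d, sec_Bd c.2⟩) = Am.inr _ _ (W.rU (W.iU c))
      rw [W.rU_i c (sec_Bd c.2), Am.glue])

/-- the sections off the ray -/
noncomputable def noU (hHK : H ≤ K) (W : Ctx C d P H) : NU hHK W →* Wr X (NV hHK W) :=
  Am.lift (Subgroup.inclusion (Bd_mono (d := d) (P := P) hHK)) W.iU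
    (offd d P (Am.inl (Subgroup.inclusion hHK) W.iV))
    ((mapWr (Am.inr (Subgroup.inclusion hHK) W.iV)).comp W.oU) (by
      intro c
      apply Wr.ext
      · funext x
        change (if hx : x = d then 1 else
          Am.inl _ _ (Subgroup.inclusion hHK ⟨sec c.1 x, c.2.2.2 0 x hx⟩)) =
          Am.inr _ _ ((W.oU (W.iU c)).s x)
        by_cases hx : x = d
        · rw [dif_pos hx, hx, W.oU_s, map_one]
        · rw [dif_neg hx, W.oU_i c x (c.2.2.2 0 x hx) hx, Am.glue]
      · change root c.1 = (W.oU (W.iU c)).p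
        rw [W.oU_ip])

theorem noU_mem (hHK : H ≤ K) (W : Ctx C d P H) (u : NU hHK W) :
    noU hHK W u ∈ stab d (NV hHK W) := by
  have h : (Am.inl (Subgroup.inclusion (Bd_mono (d := d) (P := P) hHK)) W.iU).range ⊔
      (Am.inr (Subgroup.inclusion (Bd_mono (d := d) (P := P) hHK)) W.iU).range ≤
      (stab d (NV hHK W)).comap (noU hHK W) := by
    refine sup_le ?_ ?_
    · rintro _ ⟨b, rfl⟩
      rw [Subgroup.mem_comap, noU, Am.lift_inl]
      exact ⟨root_Bd b.2, dif_pos rfl⟩
    · rintro _ ⟨b, rfl⟩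
      rw [Subgroup.mem_comap, noU, Am.lift_inr]
      refine ⟨W.oU_p b, ?_⟩
      change Am.inr _ _ ((W.oU b).s d) = 1
      rw [W.oU_s, map_one]
  rw [Am.sup_range] at h
  exact h (Subgroup.mem_top u)

end ctx

theorem t_enl (hINJ : S_AMINJ) (hTLA : S_TLA) : S_ENL := by
  intro C hC X d P hP H K hH hK hHK W
  have hinjV := hINJ H K W.V (Subgroup.inclusion hHK) W.iV (Subgroup.inclusion_injective hHK) W.iV_inj
  have hinjU := hINJ (Bd d P H) (Bd d P K) W.U (Subgroup.inclusion (Bd_mono hHK)) W.iU
    (Subgroup.inclusion_injective (Bd_mono hHK)) W.iU_inj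
  have hVl := (injective_iff_map_eq_one _).1 hinjV.1
  have hVr := (injective_iff_map_eq_one _).1 hinjV.2
  have hUl := (injective_iff_map_eq_one _).1 hinjU.1
  have hUr := (injective_iff_map_eq_one _).1 hinjU.2
  let Z : Ctx C d P K :=
    { V := NV hHK W
      U := NU hHK W
      gV := inferInstance
      gU := inferInstance
      FV := Subgroup.map (Am.inl (Subgroup.inclusion hHK) W.iV) '' {⊤} ∪
        Subgroup.map (Am.inr (Subgroup.inclusion hHK) W.iV) '' W.FV
      FU := Subgroup.map (Am.inl (Subgroup.inclusion (Bd_mono hHK)) W.iU) '' {⊤} ∪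
        Subgroup.map (Am.inr (Subgroup.inclusion (Bd_mono hHK)) W.iU) '' W.FU
      tV := hTLA C hC H K W.V _ _ (Subgroup.inclusion_injective hHK) W.iV_inj _ _ (TL_top C K) W.tV
        ⟨⊤, rfl, le_top⟩ W.iV_le
      tU := hTLA C hC (Bd d P H) (Bd d P K) W.U _ _ (Subgroup.inclusion_injective (Bd_mono hHK))
        W.iU_inj _ _ (TL_top C (Bd d P K)) W.tU ⟨⊤, rfl, le_top⟩ W.iU_le
      iV := Am.inl _ _
      iU := Am.inl _ _
      iV_inj := hinjV.1
      iU_inj := hinjU.1
      iV_le := ⟨_, Or.inl ⟨⊤, rfl, rfl⟩, by rintro _ ⟨c, rfl⟩; exact ⟨c, trivial, rfl⟩⟩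
      iU_le := ⟨_, Or.inl ⟨⊤, rfl, rfl⟩, by rintro _ ⟨c, rfl⟩; exact ⟨c, trivial, rfl⟩⟩
      rV := nrV hH hK hHK W
      rU := nrU hHK W
      oU := noU hHK W
      rV_inj := by
        rintro A (⟨_, rfl, rfl⟩ | ⟨B, hB, rfl⟩) a ha h
        · obtain ⟨k, -, rfl⟩ := ha
          rw [nrV, Am.lift_inl] at h
          have h1 : root k.1 = 1 := congrArg Wr.p h
          have h2 : ∀ x, sec k.1 x = 1 := fun x => by
            have h3 := hVl _ (congrFun (congrArg Wr.s h) x)
            exact congrArg Subtype.val h3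
          have h4 : k = 1 := Subtype.ext (T_ext (h1.trans root_one.symm)
            (fun x => (h2 x).trans (sec_one x).symm))
          rw [h4, map_one]
        · obtain ⟨v, hv, rfl⟩ := ha
          rw [nrV, Am.lift_inr] at h
          have hp : (W.rV v).p = 1 := congrArg Wr.p h
          have h1 : W.rV v = 1 := Wr.ext (funext fun x => hVr _ (congrFun (congrArg Wr.s h) x)) hp
          rw [W.rV_inj B hB v hv h1, map_one]
      rU_inj := by
        rintro A (⟨_, rfl, rfl⟩ | ⟨B, hB, rfl⟩) a ha h h'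
        · obtain ⟨k, -, rfl⟩ := ha
          rw [nrU, Am.lift_inl] at h
          rw [noU, Am.lift_inl] at h'
          have h1 : root k.1 = 1 := congrArg Wr.p h'
          have h0 : sec k.1 d = 1 := congrArg Subtype.val (hUl _ h)
          have h2 : ∀ x, sec k.1 x = 1 := fun x => by
            by_cases hx : x = d
            · rw [hx, h0]
            · have h3 := congrFun (congrArg Wr.s h') x
              change (if hx : x = d then 1 else _) = _ at h3
              rw [dif_neg hx] at h3
              exact congrArg Subtype.val (hVl _ h3)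
          have h4 : k = 1 := Subtype.ext (T_ext (h1.trans root_one.symm)
            (fun x => (h2 x).trans (sec_one x).symm))
          rw [h4, map_one]
        · obtain ⟨v, hv, rfl⟩ := ha
          rw [nrU, Am.lift_inr] at h
          rw [noU, Am.lift_inr] at h'
          have h0 : W.rU v = 1 := hUr _ h
          have hp : (W.oU v).p = 1 := congrArg Wr.p h'
          have h1 : W.oU v = 1 := Wr.ext (funext fun x => hVr _ (congrFun (congrArg Wr.s h') x)) hp
          rw [W.rU_inj B hB v hv h0 h1, map_one]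
      oU_p := fun u => (noU_mem hHK W u).1
      oU_s := fun u => (noU_mem hHK W u).2
      rV_s := by
        intro h x hx
        rw [nrV, Am.lift_inl]
        rfl
      rV_p := by
        intro h
        rw [nrV, Am.lift_inl]
        rfl
      rU_i := by
        intro b hb
        rw [nrU, Am.lift_inl]
        rfl
      oU_i := by
        intro b x hx hxd
        rw [noU, Am.lift_inl]
        exact dif_neg hxd
      oU_ip := by
        intro b
        rw [noU, Am.lift_inl]
        rfl }
  refine ⟨Z, Am.inr _ _, Am.inr _ _, fun c => Am.glue _ _ c, fun c => Am.glue _ _ c, ?_, ?_, ?_, ?_⟩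
  · intro L _ f g hfg
    exact ⟨Am.lift _ _ f g hfg, fun k => Am.lift_inl _ _ f g hfg k, fun v => Am.lift_inr _ _ f g hfg v⟩
  · intro L _ f g hfg
    exact ⟨Am.lift _ _ f g hfg, fun k => Am.lift_inl _ _ f g hfg k, fun v => Am.lift_inr _ _ f g hfg v⟩
  · rintro A (⟨_, rfl, rfl⟩ | ⟨B, hB, rfl⟩)
    · left
      rintro _ ⟨c, -, rfl⟩
      exact ⟨c, rfl⟩
    · exact Or.inr ⟨B, hB, le_rfl⟩
  · rintro A (⟨_, rfl, rfl⟩ | ⟨B, hB, rfl⟩)
    · left
      rintro _ ⟨c, -, rfl⟩
      exact ⟨c, rfl⟩
    · exact Or.inr ⟨B, hB, le_rfl⟩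

end Pool.Agent.Y383.PA
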